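import Mathlib

namespace Pool.Agent.H.MP_e7fd15_co

open SimpleGraph Finset

theorem hit {ι : Type} {t σ : ℕ} (ht : 0 < t) (U : Finset ι) (P : ι → Finset (Fin t))
    (hP : ∀ u ∈ U, σ ≤ #(P u)) (h : ℕ) : ∃ H : Finset (Fin t), #H ≤ h ∧
      #{u ∈ U | Disjoint H (P u)} * t ^ h ≤ #U * (t - σ) ^ h := by
  classical
  induction h with
  | zero => exact ⟨∅, le_rfl, by simp⟩
  | succ h ih =>
    obtain ⟨H, h1, h2⟩ := ih
    set W := {u ∈ U | Disjoint H (P u)} with hW
    have : Nonempty (Fin t) := ⟨⟨0, ht⟩⟩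
    obtain ⟨c, -, hc⟩ := exists_le_of_sum_le (s := univ) (f := fun c => #{u ∈ W | c ∉ P u} * t)
      (g := fun _ => #W * (t - σ)) univ_nonempty (by
        rw [← sum_mul, sum_const, card_univ, Fintype.card_fin, smul_eq_mul, mul_comm t]
        refine Nat.mul_le_mul_right _ ?_
        simp only [card_filter]
        rw [sum_comm, ← smul_eq_mul]
        refine sum_le_card_nsmul _ _ _ fun u hu => ?_
        rw [← card_filter]
        have := hP u (mem_filter.1 hu).1
        have e : #{c | c ∉ P u} = t - #(P u) := by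
          rw [show ({c | c ∉ P u} : Finset (Fin t)) = (P u)ᶜ by ext; simp, card_compl,
            Fintype.card_fin]
        omega)
    refine ⟨insert c H, (card_insert_le _ _).trans (by omega), ?_⟩
    have e : ({u ∈ U | Disjoint (insert c H) (P u)} : Finset ι) = {u ∈ W | c ∉ P u} := by
      ext u; simp only [hW, mem_filter, disjoint_insert_left]; tauto
    rw [e, pow_succ', ← mul_assoc]
    calc _ ≤ #W * (t - σ) * t ^ h := Nat.mul_le_mul_right _ hc
      _ = #W * t ^ h * (t - σ) := by ring
      _ ≤ #U * (t - σ) ^ h * (t - σ) := Nat.mul_le_mul_right _ h2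
      _ = _ := by ring

theorem sdr {ι C : Type} [Nonempty C] (L : ι → Finset C) (X : Finset ι) : ∀ B : Finset C,
    (∀ x ∈ X, #X + #B ≤ #(L x)) → ∃ f : ι → C, Set.InjOn f X ∧ ∀ x ∈ X, f x ∈ L x ∧ f x ∉ B := by
  classical
  induction X using Finset.induction_on with
  | empty => exact fun _ _ => ⟨fun _ => Classical.arbitrary C, by simp, by simp⟩
  | insert a X ha ih =>
    intro B h
    rw [card_insert_of_notMem ha] at h
    obtain ⟨c, c1, c2⟩ := exists_mem_notMem_of_card_lt_card (s := B) (t := L a)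
      (by have := h a (mem_insert_self _ _); omega)
    obtain ⟨f, f1, f2⟩ := ih (insert c B) fun x hx => by
      have := h x (mem_insert_of_mem hx)
      have := card_insert_le c B
      omega
    have e : ∀ x ∈ X, Function.update f a c x = f x := fun x hx =>
      Function.update_of_ne (fun e : x = a => ha (e ▸ hx)) _ _
    refine ⟨Function.update f a c, ?_, ?_⟩
    · rw [coe_insert, Set.injOn_insert (by exact ha)]
      refine ⟨f1.congr fun x hx => (e x hx).symm, ?_⟩
      rintro ⟨x, hx, h1⟩
      rw [e x hx, Function.update_self] at h1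
      exact (f2 x hx).2 (h1 ▸ mem_insert_self _ _)
    · intro x hx
      rcases mem_insert.1 hx with rfl | hx
      · rw [Function.update_self]; exact ⟨c1, c2⟩
      · rw [e x hx]; exact ⟨(f2 x hx).1, fun h => (f2 x hx).2 (mem_insert_of_mem h)⟩

variable {V : Type}

theorem low [DecidableEq V] {k : ℕ} (out : V → Finset V) (hk : ∀ v, #(out v) ≤ k) (S : Finset V)
    (hS : S.Nonempty) : ∃ w ∈ S, #{u ∈ S | w ∈ out u} ≤ k := by
  refine exists_le_of_sum_le (f := fun w => #{u ∈ S | w ∈ out u}) (g := fun _ => k) hS ?_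
  simp only [card_filter]
  rw [sum_comm]
  refine sum_le_sum fun u _ => ?_
  rw [← card_filter]
  exact (card_le_card fun x hx => (mem_filter.1 hx).2).trans (hk u)

theorem levels [DecidableEq V] {m h s : ℕ}
    (hn : 2 * m * (3 * m + h - 1) ^ h < (3 * m + h + s) ^ h) (ht : 0 < 3 * m + h + s)
    (out : V → Finset V) (hk : ∀ v, #(out v) ≤ 2 * m) (hl : ∀ v, v ∉ out v) (n : ℕ) :
    ∀ S : Finset V, #S = n → ∃ (Z0 Z1 : V → Finset (Fin (3 * m + h + s)))
      (col : V → V → Fin (3 * m + h + s)),
      (∀ v ∈ S, Z0 v ⊆ Z1 v ∧ #(Z0 v) = m + h ∧ #(Z1 v) = 2 * m + h) ∧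
      (∀ v ∈ S, Set.InjOn (col v) (out v ∩ S : Finset V)) ∧ ∀ v ∈ S, ∀ w ∈ S, w ∈ out v →
        (col v w ∈ Z0 w ∧ col v w ∉ Z0 v) ∨ (col v w ∈ Z1 w ∧ col v w ∉ Z1 v) := by
  have : Nonempty (Fin (3 * m + h + s)) := ⟨⟨0, ht⟩⟩
  induction n with
  | zero =>
    intro S hS
    rw [card_eq_zero.1 hS]
    exact ⟨fun _ => ∅, fun _ => ∅, fun _ _ => ⟨0, ht⟩, by simp, by simp, by simp⟩
  | succ n ih =>
    intro S hS
    obtain ⟨w, hw, hU⟩ := low out hk S (card_pos.1 (by omega))
    obtain ⟨Z0, Z1, col, a1, a2, a3⟩ := ih (S.erase w) (by rw [card_erase_of_mem hw]; omega)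
    set T := S.erase w with hT
    have wT : w ∉ T := notMem_erase _ _
    set P : V → Finset (Fin (3 * m + h + s)) := fun u => (Z0 u)ᶜ \ (out u ∩ T).image (col u)
      with hP
    obtain ⟨H, H1, H2⟩ := hit (σ := s + 1) ht {u ∈ T | w ∈ out u} P (fun u hu => by
      obtain ⟨u1, u2⟩ := mem_filter.1 hu
      have e1 := le_card_sdiff ((out u ∩ T).image (col u)) (Z0 u)ᶜ
      have e2 := card_image_le (s := out u ∩ T) (f := col u)
      have e3 : #(out u ∩ T) < #(out u) :=
        card_lt_card ⟨inter_subset_left, fun hh => wT (mem_inter.1 (hh u2)).2⟩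
      have e4 := hk u
      rw [card_compl, Fintype.card_fin, (a1 u u1).2.1] at e1
      simp only [hP]
      omega) h
    have H3 : ∀ u, ∃ c, u ∈ T → w ∈ out u → c ∈ H ∧ c ∈ P u := fun u => by
      by_contra hc
      push Not at hc
      obtain ⟨u1, u2, -⟩ := hc ⟨0, ht⟩
      have e1 : 1 ≤ #{u ∈ {u ∈ T | w ∈ out u} | Disjoint H (P u)} := card_pos.2 ⟨u,
        mem_filter.2 ⟨mem_filter.2 ⟨u1, u2⟩, disjoint_left.2 fun c c1 => (hc c).2.2 c1⟩⟩
      have e2 : #{u ∈ T | w ∈ out u} ≤ 2 * m :=
        (card_le_card (filter_subset_filter _ (erase_subset _ _))).trans hU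
      rw [show 3 * m + h + s - (s + 1) = 3 * m + h - 1 by omega] at H2
      have e3 := Nat.mul_le_mul_right ((3 * m + h - 1) ^ h) e2
      have e4 := Nat.mul_le_mul_right ((3 * m + h + s) ^ h) e1
      omega
    choose c hc using H3
    have hX : #(out w ∩ T) ≤ 2 * m := (card_le_card inter_subset_left).trans (hk w)
    obtain ⟨X1, X11, X12⟩ := exists_subset_card_eq (s := out w ∩ T) (n := min m #(out w ∩ T))
      (min_le_right _ _)
    have X2 : #((out w ∩ T) \ X1) ≤ m := by rw [card_sdiff_of_subset X11]; omega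
    obtain ⟨f1, f11, f12⟩ := sdr Z0 X1 H fun x hx => by
      rw [(a1 x (mem_inter.1 (X11 hx)).2).2.1]; omega
    have i1 := card_image_le (s := X1) (f := f1)
    obtain ⟨f2, f21, f22⟩ := sdr Z1 ((out w ∩ T) \ X1) (H ∪ X1.image f1) fun x hx => by
      rw [(a1 x (mem_inter.1 (mem_sdiff.1 hx).1).2).2.2]
      have := card_union_le H (X1.image f1)
      omega
    have i2 := card_image_le (s := (out w ∩ T) \ X1) (f := f2)
    obtain ⟨A1, A11, A12, A13⟩ := exists_subsuperset_card_eq (s := H)
      (t := (((out w ∩ T) \ X1).image f2)ᶜ) (n := 2 * m + h) (fun x hx => by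
        rw [mem_compl, mem_image]
        rintro ⟨y, hy, rfl⟩
        exact (f22 y hy).2 (mem_union_left _ hx)) (by omega)
        (by rw [card_compl, Fintype.card_fin]; omega)
    obtain ⟨A0, A01, A02, A03⟩ := exists_subsuperset_card_eq (s := H)
      (t := A1 \ X1.image f1) (n := m + h) (fun x hx => by
        rw [mem_sdiff, mem_image]
        refine ⟨A11 hx, ?_⟩
        rintro ⟨y, hy, rfl⟩
        exact (f12 y hy).2 hx) (by omega)
        (by have := le_card_sdiff (X1.image f1) A1; omega)
    have mT : ∀ v ∈ S, v ≠ w → v ∈ T := fun v hv h => mem_erase.2 ⟨h, hv⟩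
    refine ⟨Function.update Z0 w A0, Function.update Z1 w A1, fun v x => if v = w then
      (if x ∈ X1 then f1 x else f2 x) else if x = w then c v else col v x, ?_, ?_, ?_⟩
    · intro v hv
      by_cases e : v = w
      · rw [e, Function.update_self, Function.update_self]
        exact ⟨A02.trans sdiff_subset, A03, A13⟩
      · rw [Function.update_of_ne e, Function.update_of_ne e]
        exact a1 v (mT v hv e)
    · intro v hv x hx y hy
      obtain ⟨x1, x2⟩ := mem_inter.1 hx
      obtain ⟨y1, y2⟩ := mem_inter.1 hy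
      by_cases e : v = w
      · subst e
        have x3 : x ∈ out v ∩ T := mem_inter.2 ⟨x1, mT x x2 fun e => hl v (e ▸ x1)⟩
        have y3 : y ∈ out v ∩ T := mem_inter.2 ⟨y1, mT y y2 fun e => hl v (e ▸ y1)⟩
        simp only [if_true]
        split_ifs with p q q <;> intro e
        · exact f11 p q e
        · exact ((f22 y (mem_sdiff.2 ⟨y3, q⟩)).2
            (mem_union_right _ (e ▸ mem_image_of_mem _ p))).elim
        · exact ((f22 x (mem_sdiff.2 ⟨x3, p⟩)).2
            (mem_union_right _ (e ▸ mem_image_of_mem _ q))).elim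
        · exact f21 (mem_sdiff.2 ⟨x3, p⟩) (mem_sdiff.2 ⟨y3, q⟩) e
      · simp only [if_neg e]
        split_ifs with p q q <;> intro e'
        · rw [p, q]
        · exact ((mem_sdiff.1 (hc v (mT v hv e) (p ▸ x1)).2).2
            (e' ▸ mem_image_of_mem _ (mem_inter.2 ⟨y1, mT y y2 q⟩))).elim
        · exact ((mem_sdiff.1 (hc v (mT v hv e) (q ▸ y1)).2).2
            (e' ▸ mem_image_of_mem _ (mem_inter.2 ⟨x1, mT x x2 p⟩))).elim
        · exact a2 v (mT v hv e) (mem_inter.2 ⟨x1, mT x x2 p⟩) (mem_inter.2 ⟨y1, mT y y2 q⟩) e'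
    · intro v hv x hx x1
      by_cases e : v = w
      · subst e
        have x2 : x ≠ v := fun e => hl v (e ▸ x1)
        simp only [if_true, Function.update_self, Function.update_of_ne x2]
        split_ifs with p
        · exact Or.inl ⟨(f12 x p).1, fun hh => (mem_sdiff.1 (A02 hh)).2 (mem_image_of_mem _ p)⟩
        · have x3 := mem_sdiff.2 ⟨mem_inter.2 ⟨x1, mT x hx x2⟩, p⟩
          exact Or.inr ⟨(f22 x x3).1, fun hh => mem_compl.1 (A12 hh) (mem_image_of_mem _ x3)⟩
      · simp only [if_neg e, Function.update_of_ne e]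
        split_ifs with p
        · subst p
          obtain ⟨c1, c2⟩ := hc v (mT v hv e) x1
          rw [Function.update_self]
          exact Or.inl ⟨A01 c1, mem_compl.1 (mem_sdiff.1 c2).1⟩
        · rw [Function.update_of_ne p, Function.update_of_ne p]
          exact a3 v (mT v hv e) x (mT x hx p) x1

theorem par (F : SimpleGraph V) (hF : F.IsAcyclic) :
    ∃ p : V → V, ∀ u v, F.Adj u v → p u = v ∨ p v = u := by
  classical
  have hr : ∀ u, F.Reachable u (F.connectedComponentMk u).out := fun u =>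
    ConnectedComponent.exact (Quot.out_eq _).symm
  refine ⟨fun u => (hr u).exists_isPath.choose.snd, fun u v h => ?_⟩
  have key : ∀ x y (p : F.Walk u x) (q : F.Walk v y), x = y → p.IsPath → q.IsPath →
      p.snd = v ∨ q.snd = u := by
    rintro x y p q rfl hp hq
    by_cases hv : v ∈ p.support
    · exact Or.inl (hF.eq_snd_of_adj_start hp h hv).symm
    · right
      rw [Subtype.mk.inj <| (hF.subsingleton_path v x).elim ⟨q, hq⟩ ⟨.cons h.symm p, hp.cons hv⟩]
      simp
  exact key _ _ _ _ (by rw [ConnectedComponent.sound h.reachable])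
    (hr u).exists_isPath.choose_spec (hr v).exists_isPath.choose_spec

theorem shallow (p : V → V) (l : V → ℕ) (h2 : ∀ v, l v ≤ 2) (hp : ∀ v, p v ≠ v → l (p v) < l v) :
    (fromRel fun a b => p a = b).IsAcyclic ∧ ∀ u v, (fromRel fun a b => p a = b).Reachable u v →
      (fromRel fun a b => p a = b).dist u v ≤ 4 := by
  classical
  have p3 : ∀ v, p (p (p v)) = p (p v) := fun v => by
    by_contra h
    have a := hp _ h
    by_cases e1 : p (p v) = p v
    · exact h (by rw [e1, e1])
    · by_cases e2 : p v = v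
      · exact e1 (by rw [e2, e2])
      · have := hp _ e1
        have := hp _ e2
        have := h2 v
        omega
  have mono : ∀ v, l (p v) ≤ l v := fun v => by
    by_cases e : p v = v
    · rw [e]
    · exact (hp v e).le
  set F := fromRel fun a b => p a = b with hF
  have br : ∀ v, p v ≠ v → F.IsBridge s(v, p v) := fun v hv => by
    rw [isBridge_iff]
    rintro ⟨q⟩
    have : ∀ {x y : V} (_ : (F.deleteEdges {s(v, p v)}).Walk x y),
        (x = v ∨ p x = v ∨ p (p x) = v) ↔ (y = v ∨ p y = v ∨ p (p y) = v) := by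
      have st : ∀ x, x ≠ v → ((x = v ∨ p x = v ∨ p (p x) = v) ↔
          (p x = v ∨ p (p x) = v ∨ p (p (p x)) = v)) := fun x hx => by rw [p3]; tauto
      intro x y q
      induction q with
      | nil => rfl
      | cons h _ ih =>
        refine Iff.trans ?_ ih
        rw [deleteEdges_adj, hF, fromRel_adj] at h
        obtain ⟨⟨-, rfl | rfl⟩, h⟩ := h
        · exact st _ fun e => h (by rw [e]; rfl)
        · exact (st _ fun e => h (by rw [e]; exact Sym2.eq_swap)).symm
    have a := hp v hv
    have b := mono (p v)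
    have c := mono (p (p v))
    rcases (this q).1 (Or.inl rfl) with e | e | e
    · exact hv e
    · rw [e] at b; omega
    · rw [e] at c; omega
  constructor
  · rw [isAcyclic_iff_forall_adj_isBridge]
    intro v w h
    rw [hF, fromRel_adj] at h
    obtain ⟨h, rfl | rfl⟩ := h
    · exact br v h.symm
    · rw [Sym2.eq_swap]; exact br w h
  · have e1 : ∀ v, F.edist v (p v) ≤ 1 := fun v => by
      rw [edist_le_one_iff_adj_or_eq]
      by_cases e : v = p v
      · exact Or.inr e
      · exact Or.inl ((fromRel_adj _ _ _).2 ⟨e, Or.inl rfl⟩)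
    have e2 : ∀ v, F.edist v (p (p v)) ≤ 2 := fun v =>
      SimpleGraph.edist_triangle.trans ((add_le_add (e1 v) (e1 _)).trans (by norm_num))
    rintro u v ⟨q⟩
    have : p (p u) = p (p v) := by
      induction q with
      | nil => rfl
      | cons h _ ih =>
        refine Eq.trans ?_ ih
        rw [hF, fromRel_adj] at h
        obtain ⟨-, rfl | rfl⟩ := h
        · exact (p3 _).symm
        · exact p3 _
    have e3 : F.edist u v ≤ 4 := by
      have := e2 v
      rw [SimpleGraph.edist_comm, ← ‹p (p u) = p (p v)›] at this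
      exact SimpleGraph.edist_triangle.trans ((add_le_add (e2 u) this).trans (by norm_num))
    exact ENat.toNat_le_of_le_natCast e3

end Pool.Agent.H.MP_e7fd15_co
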